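import Pool.Agent.NPG.Stmts

set_option autoImplicit false

namespace Pool.Agent.NPG.H2

open Pool.Agent.NPG

theorem lse : LseStmt := by
  intro H _ _ _ d
  have hc : (Subgroup.closure (Set.range d) : Set H).Countable := by
    haveI : Countable (FreeGroup ℕ) := FreeGroup.toWord_injective.countable
    rw [← FreeGroup.range_lift_eq_closure, MonoidHom.coe_range]
    exact Set.countable_range _
  have hne : (Subgroup.closure (Set.range d) : Set H).Nonempty := ⟨1, Subgroup.one_mem _⟩
  obtain ⟨l, hl⟩ := hc.exists_eq_range hne
  have hsub : ∀ j, l j ∈ Subgroup.closure (Set.range d) := by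
    intro j
    have : l j ∈ (Subgroup.closure (Set.range d) : Set H) := by
      rw [hl]
      exact ⟨j, rfl⟩
    exact this
  refine ⟨(Subgroup.closure (Set.range d)).topologicalClosure, l,
    Subgroup.isClosed_topologicalClosure _, ?_, ?_, ?_⟩
  · intro s
    exact Subgroup.le_topologicalClosure _ (Subgroup.subset_closure ⟨s, rfl⟩)
  · intro j
    exact Subgroup.le_topologicalClosure _ (hsub j)
  · intro z hz W hW
    have hz' : z ∈ closure (Subgroup.closure (Set.range d) : Set H) := hz
    have hcont : Continuous fun y : H => z * y⁻¹ := continuous_const.mul continuous_inv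
    have hmem : (fun y : H => z * y⁻¹) ⁻¹' W ∈ nhds z := by
      apply hcont.continuousAt.preimage_mem_nhds
      simpa using hW
    obtain ⟨y, hyW, hyS⟩ := mem_closure_iff_nhds.1 hz' _ hmem
    rw [hl] at hyS
    obtain ⟨j, rfl⟩ := hyS
    exact ⟨j, hyW⟩

end Pool.Agent.NPG.H2
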